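import Pool.Agent.helper85.T7.SpecS

set_option autoImplicit false

/-! Row t7:GT7 (MP_16912e_nt): the tail of the Euler product. -/

namespace Pool.Agent.T7

open Finset NumberField Pool.Agent.helper3.FT Pool.Agent.helper47.RA Pool.Agent.T5 Pool.Agent.T6

theorem GT7_arith (D : ℕ) : ∑ a ∈ range D, ((a : ℝ) + 1) * (4 / 5) ^ a = 25 - (5 * D + 25) * (4 / 5) ^ D := by
  induction D with
  | zero => norm_num
  | succ n ih =>
    rw [sum_range_succ, ih]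
    push_cast
    ring

theorem GT7_Icc (D : ℕ) : ∑ a ∈ Icc 1 D, ((a : ℝ) + 1) * (4 / 5) ^ a ≤ 25 := by
  have h1 : Icc 1 D ⊆ range (D + 1) := by
    intro a ha
    rw [mem_Icc] at ha
    rw [mem_range]
    omega
  have h2 : ∑ a ∈ Icc 1 D, ((a : ℝ) + 1) * (4 / 5) ^ a ≤ ∑ a ∈ range (D + 1), ((a : ℝ) + 1) * (4 / 5) ^ a :=
    sum_le_sum_of_subset_of_nonneg h1 fun _ _ _ => by positivity
  refine h2.trans ?_
  rw [GT7_arith]
  have h3 : (0 : ℝ) ≤ (5 * ((D + 1 : ℕ) : ℝ) + 25) * (4 / 5) ^ (D + 1) := by positivity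
  linarith

/-- the exponent -/
theorem GT7_exp (a : ℕ) : ∃ k : ℕ, 8 * max 2 ((a + 1) / 2) = k + 12 + a ∧ 3 * a ≤ 16 + k := by
  refine ⟨8 * max 2 ((a + 1) / 2) - 12 - a, ?_, ?_⟩
  · omega
  · omega

theorem GT7_pow (q : ℝ) (hq : 0 < q) (hq8 : 2 ≤ q ^ 8) (a k : ℕ) (hk : 3 * a ≤ 16 + k) : (5 / 4 : ℝ) ^ a ≤ 4 * q ^ k := by
  have h1 : ((5 / 4 : ℝ) ^ a) ^ 8 ≤ (4 * q ^ k) ^ 8 := by
    calc ((5 / 4 : ℝ) ^ a) ^ 8 = ((5 / 4 : ℝ) ^ 8) ^ a := by rw [← pow_mul, ← pow_mul, mul_comm]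
      _ ≤ (8 : ℝ) ^ a := pow_le_pow_left₀ (by norm_num) (by norm_num) a
      _ = 2 ^ (3 * a) := by
        rw [pow_mul]
        norm_num
      _ ≤ 2 ^ (16 + k) := pow_le_pow_right₀ (by norm_num) hk
      _ = 4 ^ 8 * 2 ^ k := by
        rw [pow_add]
        norm_num
      _ ≤ 4 ^ 8 * (q ^ 8) ^ k := mul_le_mul_of_nonneg_left (pow_le_pow_left₀ (by norm_num) hq8 k) (by positivity)
      _ = (4 * q ^ k) ^ 8 := by
        rw [mul_pow, ← pow_mul, ← pow_mul, mul_comm 8 k]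
  exact le_of_pow_le_pow_left₀ (by norm_num) (by positivity) h1

theorem GT7_gg (K : ℝ) (hK : 1 ≤ K) (p a : ℕ) (hp : 2 ≤ p) :
    gg K p a * ((p : ℝ) ^ a) ^ (1 / 8 : ℝ) ≤ 4 * K * (1 / (p : ℝ) ^ (3 / 2 : ℝ)) * (((a : ℝ) + 1) * (4 / 5) ^ a) := by
  have hp' : (2 : ℝ) ≤ p := by exact_mod_cast hp
  have hp0 : (0 : ℝ) < p := by linarith
  obtain ⟨q, hq⟩ : ∃ q : ℝ, q = (p : ℝ) ^ (1 / 8 : ℝ) := ⟨_, rfl⟩
  have hq0 : 0 < q := by
    rw [hq]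
    exact Real.rpow_pos_of_pos hp0 _
  have hq8 : q ^ 8 = p := by
    rw [hq, ← Real.rpow_natCast, ← Real.rpow_mul hp0.le]
    norm_num
  have hqa : ((p : ℝ) ^ a) ^ (1 / 8 : ℝ) = q ^ a := by
    rw [hq, ← Real.rpow_natCast, ← Real.rpow_natCast, ← Real.rpow_mul hp0.le, ← Real.rpow_mul hp0.le, mul_comm]
  have hq12 : (p : ℝ) ^ (3 / 2 : ℝ) = q ^ 12 := by
    rw [hq, ← Real.rpow_natCast ((p : ℝ) ^ (1 / 8 : ℝ)), ← Real.rpow_mul hp0.le]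
    norm_num
  obtain ⟨k, hk1, hk2⟩ := GT7_exp a
  have h1 := GT7_pow q hq0 (by rw [hq8]; exact hp') a k hk2
  unfold gg
  rw [hqa, hq12, ← hq8, ← pow_mul, hk1, pow_add, pow_add]
  have h3 : (1 : ℝ) ≤ (4 / 5 : ℝ) ^ a * (4 * q ^ k) := by
    have h4 : (4 / 5 : ℝ) ^ a * (5 / 4 : ℝ) ^ a = 1 := by
      rw [← mul_pow]
      norm_num
    calc (1 : ℝ) = (4 / 5 : ℝ) ^ a * (5 / 4 : ℝ) ^ a := h4.symm
      _ ≤ _ := mul_le_mul_of_nonneg_left h1 (by positivity)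
  have hqk : 0 < q ^ k := by positivity
  have hqa0 : 0 < q ^ a := by positivity
  have hq120 : 0 < q ^ 12 := by positivity
  rw [div_mul_eq_mul_div, div_le_iff₀ (by positivity)]
  calc K * ((a : ℝ) + 1) * q ^ a = K * ((a : ℝ) + 1) * q ^ a * 1 := by ring
    _ ≤ K * ((a : ℝ) + 1) * q ^ a * ((4 / 5 : ℝ) ^ a * (4 * q ^ k)) := mul_le_mul_of_nonneg_left h3 (by positivity)
    _ = 4 * K * (1 / q ^ 12) * (((a : ℝ) + 1) * (4 / 5) ^ a) * (q ^ k * q ^ 12 * q ^ a) := by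
        field_simp

theorem GT7_prod (K : ℝ) (d : ℕ) (hd : 1 ≤ d) :
    ∏ p ∈ d.primeFactors, (gg K p (d.factorization p) * ((p : ℝ) ^ d.factorization p) ^ (1 / 8 : ℝ)) =
      (∏ p ∈ d.primeFactors, gg K p (d.factorization p)) * (d : ℝ) ^ (1 / 8 : ℝ) := by
  rw [prod_mul_distrib, Real.finset_prod_rpow _ _ (fun p _ => by positivity)]
  congr 2
  have h := Nat.factorization_prod_pow_eq_self (n := d) (by omega)
  have h2 : ∏ p ∈ d.primeFactors, p ^ d.factorization p = d := h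
  have h3 : ((∏ p ∈ d.primeFactors, p ^ d.factorization p : ℕ) : ℝ) = d := by rw [h2]
  rw [← h3]
  push_cast
  rfl

theorem GT7 : GT7_stmt := by
  intro K hK
  have hsum : Summable fun n : ℕ => 1 / (n : ℝ) ^ (3 / 2 : ℝ) := Real.summable_one_div_nat_rpow.2 (by norm_num)
  obtain ⟨C₁, hC₁⟩ : ∃ C₁ : ℝ, C₁ = ∑' n : ℕ, 1 / (n : ℝ) ^ (3 / 2 : ℝ) := ⟨_, rfl⟩
  have hC₁0 : 0 ≤ C₁ := by
    rw [hC₁]
    exact tsum_nonneg fun n => by positivity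
  refine ⟨Real.exp (100 * K * C₁), Real.one_le_exp (by positivity), ?_⟩
  intro w D hw
  have hw0 : (0 : ℝ) < w := by exact_mod_cast hw
  have hgg : ∀ p a, 0 ≤ gg K p a * ((p : ℝ) ^ a) ^ (1 / 8 : ℝ) := by
    intro p a
    unfold gg
    positivity
  have hmain : ∑ d ∈ (Icc 1 D).filter (fun d => w < d), ∏ p ∈ d.primeFactors, gg K p (d.factorization p) ≤
      (1 / (w : ℝ) ^ (1 / 8 : ℝ)) * ∑ d ∈ Icc 1 D, ∏ p ∈ d.primeFactors,
        (gg K p (d.factorization p) * ((p : ℝ) ^ d.factorization p) ^ (1 / 8 : ℝ)) := by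
    rw [mul_sum]
    refine (sum_le_sum ?_).trans (sum_le_sum_of_subset_of_nonneg (filter_subset _ _) ?_)
    · intro d hd
      obtain ⟨hd1, hd2⟩ := mem_filter.1 hd
      have hd3 := (mem_Icc.1 hd1).1
      rw [GT7_prod K d hd3]
      have h0 : 0 ≤ ∏ p ∈ d.primeFactors, gg K p (d.factorization p) :=
        prod_nonneg fun p _ => by unfold gg; positivity
      have h1 : (w : ℝ) ^ (1 / 8 : ℝ) ≤ (d : ℝ) ^ (1 / 8 : ℝ) :=
        Real.rpow_le_rpow hw0.le (by exact_mod_cast hd2.le) (by norm_num)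
      have h2 : 0 < (w : ℝ) ^ (1 / 8 : ℝ) := Real.rpow_pos_of_pos hw0 _
      rw [one_div_mul_eq_div, le_div_iff₀ h2]
      exact mul_le_mul_of_nonneg_left h1 h0
    · intro d _ _
      exact mul_nonneg (by positivity) (prod_nonneg fun p _ => hgg p _)
  have hTEA := TEA (fun p a => gg K p a * ((p : ℝ) ^ a) ^ (1 / 8 : ℝ)) D hgg
  have h1 : ∏ p ∈ (range (D + 1)).filter Nat.Prime, (1 + ∑ a ∈ Icc 1 D, gg K p a * ((p : ℝ) ^ a) ^ (1 / 8 : ℝ)) ≤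
      ∏ p ∈ (range (D + 1)).filter Nat.Prime, Real.exp (100 * K * (1 / (p : ℝ) ^ (3 / 2 : ℝ))) := by
    refine prod_le_prod (fun p _ => ?_) (fun p hp => ?_)
    · have : 0 ≤ ∑ a ∈ Icc 1 D, gg K p a * ((p : ℝ) ^ a) ^ (1 / 8 : ℝ) := sum_nonneg fun a _ => hgg p a
      linarith
    · have hp2 : 2 ≤ p := (mem_filter.1 hp).2.two_le
      have h2 : ∑ a ∈ Icc 1 D, gg K p a * ((p : ℝ) ^ a) ^ (1 / 8 : ℝ) ≤ 100 * K * (1 / (p : ℝ) ^ (3 / 2 : ℝ)) := by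
        calc ∑ a ∈ Icc 1 D, gg K p a * ((p : ℝ) ^ a) ^ (1 / 8 : ℝ)
            ≤ ∑ a ∈ Icc 1 D, 4 * K * (1 / (p : ℝ) ^ (3 / 2 : ℝ)) * (((a : ℝ) + 1) * (4 / 5) ^ a) :=
              sum_le_sum fun a _ => GT7_gg K hK p a hp2
          _ = 4 * K * (1 / (p : ℝ) ^ (3 / 2 : ℝ)) * ∑ a ∈ Icc 1 D, (((a : ℝ) + 1) * (4 / 5) ^ a) := by rw [mul_sum]
          _ ≤ 4 * K * (1 / (p : ℝ) ^ (3 / 2 : ℝ)) * 25 := mul_le_mul_of_nonneg_left (GT7_Icc D) (by positivity)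
          _ = 100 * K * (1 / (p : ℝ) ^ (3 / 2 : ℝ)) := by ring
      have h3 := Real.add_one_le_exp (100 * K * (1 / (p : ℝ) ^ (3 / 2 : ℝ)))
      linarith
  have h2 : ∏ p ∈ (range (D + 1)).filter Nat.Prime, Real.exp (100 * K * (1 / (p : ℝ) ^ (3 / 2 : ℝ))) ≤
      Real.exp (100 * K * C₁) := by
    rw [← Real.exp_sum]
    refine Real.exp_le_exp.2 ?_
    rw [← mul_sum, hC₁]
    exact mul_le_mul_of_nonneg_left (hsum.sum_le_tsum _ fun n _ => by positivity) (by positivity)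
  have hw8 : 0 < (w : ℝ) ^ (1 / 8 : ℝ) := Real.rpow_pos_of_pos hw0 _
  refine hmain.trans ?_
  rw [one_div_mul_eq_div]
  exact div_le_div_of_nonneg_right (hTEA.trans (h1.trans h2)) hw8.le

end Pool.Agent.T7
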