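import Pool.Agent.helper8.T7.SpecSM

set_option autoImplicit false

/-! Row t7:SXU (MP_16912e_nt): the trivial bound for the number of ideals of exact order 5. -/

namespace Pool.Agent.T7

open Finset NumberField Pool.Agent.helper3.FT Pool.Agent.helper47.RA Pool.Agent.T5 Pool.Agent.T6 Pool.Agent.T6L
open Pool.Agent.helper26.T5 (nn LEMB LPR LAW LP LPA HLN HPR HSQ HID HCL HGA)
open Pool.Agent.helper28.LT (rad)

theorem SXU_rad : rad 1 = 1 := by
  unfold rad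
  simp

theorem SXU_fin (K : Type) [Field K] [NumberField K] (Y : ℝ) : (IA K Y).Finite := by
  apply (Ideal.finite_setOfPred_absNorm_le (S := 𝓞 K) ⌊Y⌋₊).subset
  intro a ha
  exact Nat.le_floor ha.2.2.2.2.2

theorem SXU_one (hOCN : OCN_stmt) (hHGA : HGA) (K : Type) [Field K] [NumberField K] (Q : QF K) (hD : Q.D < 0)
    (Y : ℝ) (hY : 0 < Y) : ((IA K Y).ncard : ℝ) ≤
      (Nat.card {x : ClassGroup (𝓞 K) // x ^ 5 = 1} : ℝ) * (2 + 2 * Real.pi * Y / √|(Q.D : ℝ)|) := by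
  classical
  have hfin := SXU_fin K Y
  obtain ⟨B, hB⟩ : ∃ B : ℝ, B = 2 + 2 * Real.pi * Y / √|(Q.D : ℝ)| := ⟨_, rfl⟩
  have hB0 : 0 ≤ B := by
    rw [hB]
    have := Real.pi_pos
    positivity
  have hS := hOCN K Q B hB0 hfin.toFinset (by
    intro a ha
    have h := hfin.mem_toFinset.1 ha
    exact ⟨h.1, h.2.2.1, h.2.2.2.1⟩) (by
    intro T hT hTp
    have h1 := hHGA K Q 1 1 ⊤ Y hD le_rfl (fun p hp hp1 => absurd (Nat.dvd_one.1 hp1) hp.one_lt.ne')
      le_rfl (by rw [Ideal.absNorm_top]; norm_num) hY T (by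
        intro a ha
        have h := hfin.mem_toFinset.1 (hT ha)
        refine ⟨h.1, h.2.1, Nat.coprime_one_right _, ?_, ?_⟩
        · rw [Nat.cast_one, one_mul]
          exact h.2.2.2.2.2
        · obtain ⟨θ, hθ⟩ := h.2.2.1
          refine ⟨θ, ?_, ?_⟩
          · rw [Ideal.mul_top]
            exact hθ.symm
          · exact_mod_cast one_dvd _) hTp
    refine h1.trans (le_of_eq ?_)
    rw [hB, SXU_rad, Nat.primeFactors_one, Finset.card_empty, pow_zero, Nat.cast_one]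
    ring)
  rw [Set.ncard_eq_toFinset_card _ hfin, ← hB]
  refine hS.trans (mul_le_mul_of_nonneg_right ?_ hB0)
  linarith

open Classical in
theorem SXU_mem {N : ℝ} {D : ℤ} (h : D ∈ DN N) : D ∈ Icc (-⌊N⌋) (-1) ∧ IsFund D ∧ N / 2 < -(D : ℝ) := by
  unfold DN at h
  exact Finset.mem_filter.1 h

theorem SXU_num (N Y d : ℝ) (hN : 1 ≤ N) (hY : 0 < Y) (hd : N / 2 < d) :
    2 + 2 * Real.pi * Y / √d ≤ 10 * (1 + Y / √N) := by
  have hsN : 0 < √N := Real.sqrt_pos.2 (by linarith)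
  have hsd : 0 < √d := Real.sqrt_pos.2 (by linarith)
  have h1 : √N ≤ 3 / 2 * √d := by
    rw [Real.sqrt_le_left (by positivity), mul_pow, Real.sq_sqrt (by linarith)]
    linarith
  have h2 : 2 * Real.pi * Y / √d ≤ 10 * (Y / √N) := by
    rw [mul_div_assoc', div_le_div_iff₀ hsd hsN]
    have h3 : 2 * Real.pi ≤ 6.3 := by linarith [Real.pi_lt_d2]
    calc 2 * Real.pi * Y * √N ≤ 6.3 * Y * (3 / 2 * √d) := by gcongr
      _ ≤ 10 * Y * √d := by nlinarith [mul_pos hY hsd]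
  linarith

theorem SXU (hUBH : UBH_stmt) (hH : ∃ h : ℤ → ℕ, IsH h) (hOCN : OCN_stmt) (hHGA : HGA) : SXU_stmt := by
  obtain ⟨C₀, hC₀, hU⟩ := hUBH
  obtain ⟨h, hh⟩ := hH
  refine ⟨20 * C₀ + 1, by linarith, ?_⟩
  intro N Y hN hY
  have hterm : ∀ D ∈ DN N, (cA D Y : ℝ) ≤ (h D : ℝ) * (10 * (1 + Y / √N)) := by
    intro D hD
    have hq : (0 : ℝ) ≤ 10 * (1 + Y / √N) := by positivity
    unfold cA
    split_ifs with hne
    · obtain ⟨hI, -, hD2⟩ := SXU_mem hD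
      obtain ⟨-, hD1⟩ := Finset.mem_Icc.1 hI
      have hQD : hne.some.Q.D = D := hne.some.hD
      have hD0 : hne.some.Q.D < 0 := by omega
      have h1 := SXU_one hOCN hHGA hne.some.K hne.some.Q hD0 Y hY
      have h2 := hh hne.some.K hne.some.fin
      rw [hne.some.dK] at h2
      rw [← h2, hQD] at h1
      have habs : |(D : ℝ)| = -(D : ℝ) := by
        apply abs_of_neg
        have : D < 0 := by omega
        exact_mod_cast this
      refine h1.trans (mul_le_mul_of_nonneg_left ?_ (Nat.cast_nonneg _))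
      rw [habs]
      exact SXU_num N Y _ hN hY hD2
    · rw [Nat.cast_zero]
      exact mul_nonneg (Nat.cast_nonneg _) hq
  have hsum : ∑ D ∈ DN N, (h D : ℝ) ≤ C₀ * ((⌊N⌋₊ + 1 : ℕ) : ℝ) := by
    refine hU h hh (⌊N⌋₊ + 1) (DN N) ?_
    intro D hD
    obtain ⟨hI, hF, -⟩ := SXU_mem hD
    obtain ⟨hD0, hD1⟩ := Finset.mem_Icc.1 hI
    have hfl : (⌊N⌋₊ : ℤ) = ⌊N⌋ := Int.natCast_floor_eq_floor (by linarith)
    refine ⟨hF, by omega, ?_⟩
    rw [abs_of_neg (by omega : D < 0)]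
    push_cast
    omega
  have hM : ((⌊N⌋₊ + 1 : ℕ) : ℝ) ≤ 2 * N := by
    push_cast
    have := Nat.floor_le (show (0 : ℝ) ≤ N by linarith)
    linarith
  have hq : (0 : ℝ) ≤ 1 + Y / √N := by positivity
  calc ∑ D ∈ DN N, (cA D Y : ℝ) ≤ ∑ D ∈ DN N, (h D : ℝ) * (10 * (1 + Y / √N)) := Finset.sum_le_sum hterm
    _ = (∑ D ∈ DN N, (h D : ℝ)) * (10 * (1 + Y / √N)) := by rw [Finset.sum_mul]
    _ ≤ (C₀ * (2 * N)) * (10 * (1 + Y / √N)) := by
        refine mul_le_mul_of_nonneg_right ?_ (by positivity)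
        exact hsum.trans (mul_le_mul_of_nonneg_left hM hC₀)
    _ ≤ (20 * C₀ + 1) * (1 + Y / √N) * N := by
        have : 0 ≤ (1 + Y / √N) * N := mul_nonneg hq (by linarith)
        nlinarith

end Pool.Agent.T7
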